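import Mathlib
import Pool.Agent.H902R3.XI.Stmts

open Complex MeasureTheory Filter Topology Set Metric
open scoped Real ENNReal

namespace Pool.Agent.H902R3.XI

theorem cnt_eq_indicator (f : ℂ → ℂ) (S : Set ℂ) :
    cnt f S = ∑' z : ℂ, S.indicator (fun z => ((analyticOrderAt f z : ℕ∞) : ℝ≥0∞)) z := by
  unfold cnt
  exact tsum_subtype S (fun z => ((analyticOrderAt f z : ℕ∞) : ℝ≥0∞))

/-- superadditivity of the number of zeros -/
theorem sum_cnt_le (f : ℂ → ℂ) (m : ℕ) (S : ℕ → Set ℂ) (U : Set ℂ)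
    (hsub : ∀ k < m, S k ⊆ U) (hdisj : ∀ k < m, ∀ l < m, k ≠ l → Disjoint (S k) (S l)) :
    ∑ k ∈ Finset.range m, cnt f (S k) ≤ cnt f U := by
  simp_rw [cnt_eq_indicator]
  rw [← Summable.tsum_finsetSum (fun _ _ => ENNReal.summable)]
  refine ENNReal.tsum_le_tsum fun z => ?_
  by_cases h : ∃ k < m, z ∈ S k
  · obtain ⟨k, hk, hz⟩ := h
    rw [Finset.sum_eq_single_of_mem k (Finset.mem_range.2 hk)]
    · exact Set.indicator_le_indicator_of_subset (hsub k hk) (fun _ => bot_le) z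
    · intro l hl hlk
      refine Set.indicator_of_notMem (fun hzl => ?_) _
      exact Set.disjoint_left.1 (hdisj l (Finset.mem_range.1 hl) k hk hlk) hzl hz
  · push Not at h
    rw [Finset.sum_eq_zero]
    · exact bot_le
    · intro l hl
      exact Set.indicator_of_notMem (h l (Finset.mem_range.1 hl)) _

theorem taskN4 : TaskN3 → TaskN4 := by
  intro h τ hτ
  obtain ⟨c, T₀, hc, h⟩ := h τ hτ
  refine ⟨c / 4, max T₀ 16, by positivity, fun T hT => ?_⟩
  have hT0 : T₀ ≤ T := le_trans (le_max_left _ _) hT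
  have hT16 : (16 : ℝ) ≤ T := le_trans (le_max_right _ _) hT
  have hTpos : 0 < T := by linarith
  set q := Real.sqrt (2 * T) with hq
  have hqpos : 0 < q := Real.sqrt_pos.2 (by linarith)
  have hq2 : q ^ 2 = 2 * T := Real.sq_sqrt (by linarith)
  set m := ⌊T / q⌋₊ with hm
  have hmle : (m : ℝ) ≤ T / q := Nat.floor_le (by positivity)
  have hmlt : T / q < m + 1 := Nat.lt_floor_add_one _
  have hmq : (m : ℝ) * q ≤ T := (le_div_iff₀ hqpos).1 hmle
  have hlog : 0 < Real.log T := Real.log_pos (by linarith)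
  let S : ℕ → Set ℂ := fun k =>
    {s : ℂ | 1 / 2 < s.re ∧ T + k * q ≤ s.im ∧ s.im < T + k * q + Real.sqrt (T + k * q)}
  have hkq : ∀ k < m, (k : ℝ) * q + q ≤ T := by
    intro k hk
    have h1 : (k : ℝ) + 1 ≤ m := by exact_mod_cast hk
    nlinarith
  have hsq : ∀ k < m, Real.sqrt (T + k * q) ≤ q := by
    intro k hk
    refine Real.sqrt_le_sqrt ?_
    have := hkq k hk
    linarith
  have hsub : ∀ k < m, S k ⊆ {s : ℂ | 1 / 2 < s.re ∧ T ≤ s.im ∧ s.im ≤ 2 * T} := by
    rintro k hk s ⟨h1, h2, h3⟩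
    have h4 := hkq k hk
    have h5 := hsq k hk
    have h6 : 0 ≤ (k : ℝ) * q := by positivity
    exact ⟨h1, by linarith, by linarith⟩
  have hdisj : ∀ k < m, ∀ l < m, k ≠ l → Disjoint (S k) (S l) := by
    have key : ∀ k < m, ∀ l < m, k < l → Disjoint (S k) (S l) := by
      intro k hk l hl hkl
      rw [Set.disjoint_left]
      rintro s ⟨_, _, h3⟩ ⟨_, h5, _⟩
      have h7 := hsq k hk
      have h8 : (k : ℝ) + 1 ≤ l := by exact_mod_cast hkl
      nlinarith
    intro k hk l hl hkl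
    rcases lt_or_gt_of_ne hkl with h1 | h1
    · exact key k hk l hl h1
    · exact (key l hl k hk h1).symm
  refine le_trans ?_ (sum_cnt_le (X τ) m S _ hsub hdisj)
  have h1 : ∀ k ∈ Finset.range m,
      ENNReal.ofReal (c * Real.sqrt T * Real.log T) ≤ cnt (X τ) (S k) := by
    intro k _
    have h6 : 0 ≤ (k : ℝ) * q := by positivity
    refine le_trans (ENNReal.ofReal_le_ofReal ?_) (h (T + k * q) (by linarith))
    have h9 : Real.sqrt T ≤ Real.sqrt (T + k * q) := Real.sqrt_le_sqrt (by linarith)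
    have h10 : Real.log T ≤ Real.log (T + k * q) := Real.log_le_log hTpos (by linarith)
    gcongr
  refine le_trans ?_ (Finset.sum_le_sum h1)
  rw [Finset.sum_const, Finset.card_range, nsmul_eq_mul, ← ENNReal.ofReal_natCast,
    ← ENNReal.ofReal_mul (by positivity)]
  refine ENNReal.ofReal_le_ofReal ?_
  have hs : 0 < Real.sqrt T := Real.sqrt_pos.2 hTpos
  have hs2 : Real.sqrt T ^ 2 = T := Real.sq_sqrt hTpos.le
  have hs4 : 4 ≤ Real.sqrt T := by
    rw [show (4 : ℝ) = Real.sqrt 16 by rw [show (16 : ℝ) = 4 ^ 2 by norm_num]; simp]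
    exact Real.sqrt_le_sqrt hT16
  -- `q ≤ (3/2) √T`
  have hq3 : q ≤ 3 / 2 * Real.sqrt T := by
    refine Real.sqrt_le_iff.2 ⟨by positivity, ?_⟩
    nlinarith
  -- `m ≥ T / q - 1 ≥ (2/3) √T - 1`
  have hm1 : 2 / 3 * Real.sqrt T - 1 ≤ m := by
    have h2 : 2 / 3 * Real.sqrt T ≤ T / q := by
      rw [le_div_iff₀ hqpos]
      nlinarith
    linarith
  have hm2 : 1 / 4 * Real.sqrt T ≤ m := by linarith
  have h3 : c / 4 * T * Real.log T = (1 / 4 * Real.sqrt T) * (c * Real.sqrt T * Real.log T) := by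
    have h4 : c / 4 * T * Real.log T = c / 4 * (Real.sqrt T ^ 2) * Real.log T := by rw [hs2]
    rw [h4]
    ring
  rw [h3]
  exact mul_le_mul_of_nonneg_right hm2 (by positivity)

end Pool.Agent.H902R3.XI
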